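import Pool.Agent.Helper93.FST.Tv
import Pool.Agent.Helper29.MX.Bas

/-! TRUNCATED ZOOM, volumes of the windows of the truncated systems. -/

set_option autoImplicit false

namespace Pool.Agent.Helper93.FST

open Finset Filter Topology Matrix Pool.Agent.Helper69.RK Pool.Agent.Helper31.EC Pool.Agent.Helper31.EC.Sp
open Pool.Agent.Helper40.EL Pool.Agent.Helper89.LX Pool.Agent.Helper3.LF Pool.Agent.Helper84.MT
open Pool.Agent.Helper7.GZ Pool.Agent.Helper7.RD Pool.Agent.Helper29.MX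
open Pool.Agent.Helper87.NSL (cndR KnS)
open Pool.Agent.Helper52.SL (untF tnF untL tnL nul_trn cellv_chg untF_leak tnF_leak)

noncomputable section

variable {S : Sp} {M : ℕ} {E E' : ℕ → ℕ} {ι : Type}

/-- the conditions `R` and the windows `c` as partitions -/
@[instance_reducible] def cdP (s : MSys S M E ι) (R : Rsl S) (c : ℝ) : Option ι → Rsl S
  | none => R
  | some i => fun k => (s.lf i).La k ⊓ Setoid.ker ((s.lf i).Y.cellv c k)

theorem cndR_cdP (s : MSys S M E ι) (R : Rsl S) (c : ℝ) : cndR s R c = fun i k => fc (cdP s R c i k) := by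
  funext i
  rcases i with _ | i
  · rfl
  · rfl

theorem cndR_trn (s : MSys S M E ι) (R : Rsl S) {e : ℝ} (he : 0 < e) (he1 : e ≤ 1) (c : ℝ) :
    cndR (s.trn e he he1) R c = fun i k => fc (F := (S.chg S.tr e he).F k) (cdP s R (e * c) i k) := by
  funext i
  rcases i with _ | i
  · rfl
  · funext k
    show fc (F := (S.chg S.tr e he).F k) ((s.lf i).La k ⊓ Setoid.ker (((s.lf i).Y.chg S.tr e he).cellv c k)) =
      fc (F := (S.chg S.tr e he).F k) ((s.lf i).La k ⊓ Setoid.ker ((s.lf i).Y.cellv (e * c) k))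
    rw [cellv_chg]

/-- volume of a truncated system -/
theorem volKO_trn (s : MSys S M E ι) (R : Rsl S) {e : ℝ} (he : 0 < e) (he1 : e ≤ 1) (c : ℝ) :
    volKO (s.trn e he he1) R c = volCO (S := S.chg S.tr e he) (LC.kz fun k => fc (F := (S.chg S.tr e he).F k) (R k))
      (fun i k => fc (F := (S.chg S.tr e he).F k) (cdP s R (e * c) i k)) (s.Q.chg S.tr e he) := by
  have h1 : volKO (s.trn e he he1) R c = volCO (KZ (S := S.chg S.tr e he) R) (cndR (s.trn e he he1) R c)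
    (s.trn e he he1).Q := Pool.Agent.Helper29.MX.volKO_eq (s.trn e he he1) R c
  rw [h1, cndR_trn]
  rfl

variable [Finite ι]

/-- VOLUMES OF THE TRUNCATIONS of the zoom and of the system -/
theorem tz_volKO {Z : ZU S} {s : MSys S M E ι} {t : MSys Z.sp M E' ι} (z : PZ Z s.Q M) (hX : z.X = t.Q) {R : Rsl S}
    (hZ : KLb s R Z.c Z.l) {a : ℝ} (ha : Z.c ≤ a) (hau : a + Z.u ≤ 1) {r : ℝ} (hr : 0 < r) (hr1 : r ≤ 1)
    (hT : TamP z a) {b : ℝ} (h : WZ Z s t (r * b))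
    (lam : ∀ k, (Z.l k).T.Ω → ℝ) (Cl : ℝ)
    (hlb : ∀ᶠ k in UF, ∀ ω, (Z.l k).T.μ ω ≠ 0 → |lam k ω| ≤ Cl)
    (K : ℕ → ℝ) (hK : S.Sub K) (hdet : Typ (S := Z.l.sp) (fun k (ω : (Z.l k).T.Ω) =>
      2 ^ (2 * lam k ω * (S.F k).n) ≤ K k * (jac (z.R.p k ω) (s.Q.v k ((Z.l k).p.π ω))).det ^ 2)) :
    ul (fun k => ∑ ω, (Z.l k).T.μ ω * lam k ω) + Z.u * r * (M - volKO (t.trn r hr hr1) (roz Z R) b) ≤
      (a + Z.u * r) * (M - volKO (s.trn (a + Z.u * r) (lev_pos ha hr) (lev_le hau hr1)) R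
        ((Z.c + Z.u * (r * b)) / (a + Z.u * r))) := by
  have he := lev_pos (r := r) ha hr
  rw [volKO_trn, volKO_trn, mul_div_cancel₀ _ he.ne', ← hX]
  refine tz_volCO z ha hr hr1 hT (A := cdP s R (Z.c + Z.u * (r * b))) (B := cdP t (roz Z R) (r * b)) (C := R) ?_ ?_
    hZ.2 lam Cl hlb K hK hdet
  · rw [← cndR_cdP]
    have h1 := (KLb_iff.mp hZ).1.mono h.c_le
    exact h1
  · intro i
    refine ⟨i, ?_⟩
    rcases i with _ | i
    · exact PLe.refl _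
    · exact h.le i

/-- VOLUMES of the zoom and of the system -/
theorem wz_volKO {Z : ZU S} {s : MSys S M E ι} {t : MSys Z.sp M E' ι} (z : PZ Z s.Q M) (hX : z.X = t.Q) {R : Rsl S}
    (hZ : KLb s R Z.c Z.l) {b : ℝ} (h : WZ Z s t b) (lam : ∀ k, (Z.l k).T.Ω → ℝ) (Cl : ℝ)
    (hlb : ∀ᶠ k in UF, ∀ ω, (Z.l k).T.μ ω ≠ 0 → |lam k ω| ≤ Cl) (K : ℕ → ℝ) (hK : S.Sub K)
    (hdet : Typ (S := Z.l.sp) (fun k (ω : (Z.l k).T.Ω) =>
      2 ^ (2 * lam k ω * (S.F k).n) ≤ K k * (jac (z.R.p k ω) (s.Q.v k ((Z.l k).p.π ω))).det ^ 2)) :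
    ul (fun k => ∑ ω, (Z.l k).T.μ ω * lam k ω) + Z.u * (M - volKO t (roz Z R) b) ≤
      M - volKO s R (Z.c + Z.u * b) := by
  have h1 := KLb_iff.mp hZ
  have h2 := h.volCO_le (A := pR R) (A' := upz Z (pR R)) z (fun i => h1.1 (some i)) (h1.1 none) (PLe.refl _) h1.2
    lam Cl hlb K hK hdet
  rw [Pool.Agent.Helper7.RD.volKO_eq, Pool.Agent.Helper7.RD.volKO_eq, pR_roz, ← hX]
  linarith

end

end Pool.Agent.Helper93.FST
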