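import Pool.Agent.Helper15.FST.St

/-! [N1] of the rows of FIRST: volumes of the zoom at all levels. -/

set_option autoImplicit false

namespace Pool.Agent.Helper93.FST

open Finset Filter Topology Matrix Pool.Agent.Helper69.RK Pool.Agent.Helper31.EC Pool.Agent.Helper31.EC.Sp
open Pool.Agent.Helper40.EL Pool.Agent.Helper89.LX Pool.Agent.Helper3.LF Pool.Agent.Helper84.MT
open Pool.Agent.Helper7.GZ Pool.Agent.Helper7.RD Pool.Agent.Helper29.MX
open Pool.Agent.Helper70.CPW (zuz WinR)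
open Pool.Agent.Helper15.FST (UL Zst ROW_N1)

noncomputable section

variable {S : Sp} {N : ℕ} {E : ℕ → ℕ} {ι : Type}

theorem roz_ofZ (W : Rsl S) (c w : ℝ) (h0 : 0 ≤ c) (hu : 0 < w) (h1 : c + w ≤ 1) :
    roz (zuz W c w h0 hu h1) (rbot S) = rbot (zuz W c w h0 hu h1).sp := by
  funext k
  apply Setoid.ext
  intro x y
  exact Iff.rfl

theorem zst_wz {s : MSys S N E ι} {κ : ℕ} {c a w U : ℝ} (Z : Zst s κ c a w U) {b : ℝ} (hb : 0 ≤ b) (hb1 : b ≤ 1) :
    WZ (zuz Z.W c w Z.h0 Z.hu Z.h1) s Z.t b where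
  b0 := hb
  le := fun i => (Z.win b i hb hb1).1
  ge := fun i => (Z.win b i hb hb1).2

theorem row_n1 : ROW_N1 := by
  intro S N g r κ s c a w U Z e b he he1 hb hbe
  have hw := Z.hu
  have ha0 : 0 ≤ a := Z.h0.trans Z.ca
  have he2 : 0 < a + w * e := by
    have := mul_pos hw he
    linarith
  have he3 : a + w * e ≤ 1 := by
    have h1 : w * e ≤ w := mul_le_of_le_one_right hw.le he1
    have := Z.aw
    linarith
  unfold UL
  rw [dif_pos ⟨he, he1⟩, dif_pos ⟨he2, he3⟩]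
  have hK : KLb s (rbot S) c (Lab.ofZ Z.W) := (tlb_iff s c _).mpr Z.tlb
  have hbe' : e * (b / e) = b := by field_simp
  have hwz : WZ (zuz Z.W c w Z.h0 Z.hu Z.h1) s Z.t (e * (b / e)) := by
    rw [hbe']
    exact zst_wz Z hb (hbe.trans he1)
  obtain ⟨K, hKs, hdet⟩ := Z.det
  have h1 := tz_volKO (Z := zuz Z.W c w Z.h0 Z.hu Z.h1) Z.z Z.tQ.symm hK Z.ca Z.aw he he1 Z.tam hwz
    (fun _ _ => U) |U| (Eventually.of_forall fun _ _ _ => le_rfl) K hKs
    (Typ.mono (S := (Lab.ofZ Z.W).sp) hdet (Eventually.of_forall fun k ω _ h => h.1))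
  rw [roz_ofZ, hbe'] at h1
  have h2 : ul (fun k => ∑ ω, ((zuz Z.W c w Z.h0 Z.hu Z.h1).l k).T.μ ω * U) = U := by
    have e1 : (fun k => ∑ ω, ((zuz Z.W c w Z.h0 Z.hu Z.h1).l k).T.μ ω * U) = fun _ => U := by
      funext k
      rw [← Finset.sum_mul]
      have h5 : ∑ ω, ((zuz Z.W c w Z.h0 Z.hu Z.h1).l k).T.μ ω = 1 := ((zuz Z.W c w Z.h0 Z.hu Z.h1).l k).T.ms
      rw [h5, one_mul]
    rw [e1]
    exact ul_eq tendsto_const_nhds
  rw [h2] at h1
  have h3 : U + w * e * (N - volKO (Z.t.trn e he he1) (rbot _) (b / e)) ≤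
    (a + w * e) * (N - volKO (s.trn (a + w * e) he2 he3) (rbot _) ((c + w * b) / (a + w * e))) := h1
  have e2 : w * (e * (N - volKO (Z.t.trn e he he1) (rbot _) (b / e))) =
    w * e * (N - volKO (Z.t.trn e he he1) (rbot _) (b / e)) := by ring
  rw [e2]
  linarith

end

end Pool.Agent.Helper93.FST
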