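import Pool.Agent.Helper93.FST.Tz
import Pool.Agent.Helper84.MT.Fun
import Pool.Agent.Helper7.RD.Br

/-! TRUNCATED ZOOM, volumes: the volume of the point truncated at the level `a + u r` and the volume of the point of the
zoom truncated at the level `r`. -/

set_option autoImplicit false

namespace Pool.Agent.Helper93.FST

open Finset Filter Topology Matrix Pool.Agent.Helper69.RK Pool.Agent.Helper31.EC Pool.Agent.Helper31.EC.Sp
open Pool.Agent.Helper40.EL Pool.Agent.Helper89.LX Pool.Agent.Helper3.LF Pool.Agent.Helper84.MT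
open Pool.Agent.Helper7.GZ Pool.Agent.Helper7.RD Pool.Agent.Helper29.MX
open Pool.Agent.Helper87.NSL (cndR KnS)
open Pool.Agent.Helper52.SL (untF tnF untL tnL nul_trn cellv_chg untF_leak tnF_leak)

noncomputable section

variable {S : Sp} {M M' : ℕ}

/-! ### volumes of an extension -/

/-- a form of a class of an extension is a form of the class of the space -/
theorem volC_dn {T : Sp} (p : Pj T S) {κ κ' : Type} [Finite κ] {C : Part S} {A : κ → Part S} {C' : Part T}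
    {B : κ' → Part T} {Q : S.VV M} {D : ℕ}
    (h : ∀ y : Lab T, y.DMf B → (LC.kz C').ev y → Lab.DMf (Lab.down p y) A ∧ (LC.kz C).ev (Lab.down p y)) :
    volC (LC.kz C) A Q D ≤ volC (LC.kz C') B (p.vv Q) D := by
  obtain ⟨x, hx⟩ := (gaq (p.vv Q) D).exists_optfK (LC.kz C') B
  rw [volC_eq hx, vol_dn p Q x]
  have h1 := h _ (Gau.Adf.dm _ hx.1.1) hx.1.2
  refine volC_le_of ⟨?_, h1.2⟩
  have h2 := hx.1.1.fm
  rw [gaq_pull] at h2
  exact Gau.Adf_iff.2 ⟨h1.1, h2.dn⟩

theorem volCO_dn {T : Sp} (p : Pj T S) {κ κ' : Type} [Finite κ] {C : Part S} {A : κ → Part S} {C' : Part T}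
    {B : κ' → Part T} {Q : S.VV M}
    (h : ∀ y : Lab T, y.DMf B → (LC.kz C').ev y → Lab.DMf (Lab.down p y) A ∧ (LC.kz C).ev (Lab.down p y)) :
    volCO (LC.kz C) A Q ≤ volCO (LC.kz C') B (p.vv Q) :=
  le_ciInf fun D => (volCO_le D).trans (volC_dn p h)

section tr

variable {Z : ZU S} {Q : S.VV M} (z : PZ Z Q M') {a : ℝ} (ha : Z.c ≤ a) (hau : a + Z.u ≤ 1)
  {r : ℝ} (hr : 0 < r) (hr1 : r ≤ 1)

/-- the truncation of the space of the zoom and the zoom of the truncation -/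
def idp : Pj (Z.sp.chg Z.sp.tr r hr) (tZ ha hr).sp where
  π := fun _ ω => ω
  law := fun k => push_id _
  hZ := fun k ω ω' _ _ => by
    constructor
    · intro h
      exact ⟨h.2.1, h.2.2⟩
    · intro h
      exact ⟨trivial, h.1, h.2⟩
  hn := fun k => by
    show r * (Z.u * (Z.l k).T.n) = Z.u * r / (a + Z.u * r) * ((a + Z.u * r) * (S.F k).n)
    rw [(Z.l k).hn, ← mul_assoc (Z.u * r / (a + Z.u * r)), div_mul_cancel₀ _ (lev_pos ha hr).ne']
    ring

theorem idp_vv : (idp ha hr).vv (tX z ha hr) = z.X.chg Z.sp.tr r hr := rfl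

/-- the leaks of a label of the truncation of the zoom -/
theorem down_idp_leak (y : Lab (Z.sp.chg Z.sp.tr r hr)) (A : Rsl Z.sp) (k : ℕ) :
    (Lab.down (idp ha hr) y k).leak (fc (F := (tZ ha hr).sp.F k) (A k)) ≤
      (untL y k).leak (fc (F := Z.sp.F k) (A k)) :=
  Pool.Agent.Helper52.KP.down_leak ((idp ha hr).fp k) ((idp ha hr).hn k) (y k) (fc (F := (tZ ha hr).sp.F k) (A k))

/-- labels of the truncation of the zoom are labels of the zoom of the truncation -/
theorem down_idp_DMf {κ κ' : Type} {B : κ' → Rsl Z.sp} {A : κ → Rsl Z.sp}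
    (hAB : ∀ i, ∃ j, PLe (S := Z.sp) (fun k => fc (B j k)) (fun k => fc (A i k)))
    {y : Lab (Z.sp.chg Z.sp.tr r hr)} (hy : (untL y).DMf (fun j k => fc (F := Z.sp.F k) (B j k))) :
    Lab.DMf (Lab.down (idp ha hr) y) (fun i k => fc (F := (tZ ha hr).sp.F k) (A i k)) := by
  have h1 : (untL y).DMf (fun i k => fc (F := Z.sp.F k) (A i k)) := Lab.DMf.mono hy hAB
  intro i
  have h2 : Nul Z.sp (fun k => (Lab.down (idp ha hr) y k).leak (fc (F := (tZ ha hr).sp.F k) (A i k))) :=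
    (h1 i).of_le (Eventually.of_forall fun k => FLab.leak_nonneg _ _)
      (Eventually.of_forall fun k => down_idp_leak ha hr y (A i) k)
  have h3 : Nul (Z.sp.chg Z.sp.tr r hr)
      (fun k => (Lab.down (idp ha hr) y k).leak (fc (F := (tZ ha hr).sp.F k) (A i k))) := nul_trn.mpr h2
  exact (Pool.Agent.Helper52.KP.nul_ext (idp ha hr)).mp h3

theorem down_idp_kz {C : Rsl Z.sp} {y : Lab (Z.sp.chg Z.sp.tr r hr)}
    (hy : (LC.kz (fun k => fc (F := Z.sp.F k) (C k))).ev (untL y)) :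
    (LC.kz (fun k => fc (F := (tZ ha hr).sp.F k) (C k))).ev (Lab.down (idp ha hr) y) := by
  filter_upwards [hy] with k hk
  have h1 : (untL y k).leak (fc (F := Z.sp.F k) (C k)) = 0 := hk
  have h2 := down_idp_leak ha hr y C k
  rw [h1] at h2
  exact le_antisymm h2 (FLab.leak_nonneg _ _)

end tr

/-! ### the volumes -/

section vo

variable {Z : ZU S} {Q : S.VV M} (z : PZ Z Q M) {a : ℝ} (ha : Z.c ≤ a) (hau : a + Z.u ≤ 1)
  {r : ℝ} (hr : 0 < r) (hr1 : r ≤ 1)

/-- labels of the system as labels of the truncation -/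
theorem tnL_DMf' {κ : Type} {A : κ → Rsl S} {e : ℝ} (he : 0 < e) {l : Lab S} (hl : l.DMf (fun i k => fc (A i k))) :
    (tnL e he l).DMf (fun i k => fc (F := (S.chg S.tr e he).F k) (A i k)) := fun i => nul_trn.mpr (hl i)

include hr1 in
/-- VOLUMES OF THE TRUNCATED POINTS -/
theorem tz_volCO {κ κ' : Type} [Finite κ] {A : κ → Rsl S} {B : κ' → Rsl Z.sp} (hT : TamP z a)
    (hl : Z.l.DMf (fun i k => fc (A i k)))
    (hAB : ∀ i, ∃ j, PLe (S := Z.sp) (fun k => fc (B j k)) (upz Z (fun k => fc (A i k)))) {C : Rsl S}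
    (hC : (LC.kz (fun k => fc (C k))).ev Z.l)
    (lam : ∀ k, (Z.l k).T.Ω → ℝ) (Cl : ℝ)
    (hlb : ∀ᶠ k in UF, ∀ ω, (Z.l k).T.μ ω ≠ 0 → |lam k ω| ≤ Cl)
    (K : ℕ → ℝ) (hK : S.Sub K) (hdet : Typ (S := Z.l.sp) (fun k (ω : (Z.l k).T.Ω) =>
      2 ^ (2 * lam k ω * (S.F k).n) ≤ K k * (jac (z.R.p k ω) (Q.v k ((Z.l k).p.π ω))).det ^ 2)) :
    ul (fun k => ∑ ω, (Z.l k).T.μ ω * lam k ω) + Z.u * r * (M - volCO (S := Z.sp.chg Z.sp.tr r hr)
        (LC.kz fun k => fc (F := (Z.sp.chg Z.sp.tr r hr).F k) (roz Z C k))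
        (fun j k => fc (F := (Z.sp.chg Z.sp.tr r hr).F k) (B j k)) (z.X.chg Z.sp.tr r hr)) ≤
      (a + Z.u * r) * (M - volCO (S := S.chg S.tr (a + Z.u * r) (lev_pos ha hr))
        (LC.kz fun k => fc (F := (S.chg S.tr (a + Z.u * r) (lev_pos ha hr)).F k) (C k))
        (fun i k => fc (F := (S.chg S.tr (a + Z.u * r) (lev_pos ha hr)).F k) (A i k))
        (Q.chg S.tr (a + Z.u * r) (lev_pos ha hr))) := by
  have he := lev_pos (r := r) ha hr
  -- the volumes of the truncated pair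
  have h1 := (tP z ha hr hr1 hT).volCO_le (κ := κ) (κ' := κ)
    (A := fun i k => fc (F := (S.chg S.tr (a + Z.u * r) he).F k) (A i k))
    (B := fun i => upz (tZ ha hr) (fun k => fc (F := (S.chg S.tr (a + Z.u * r) he).F k) (A i k)))
    (tnL_DMf' he hl) (fun i => ⟨i, PLe.refl _⟩) (C := fun k => fc (F := (S.chg S.tr (a + Z.u * r) he).F k) (C k)) hC
    (fun k ω => lam k ω / (a + Z.u * r)) (Cl / (a + Z.u * r)) (by
      filter_upwards [hlb] with k hk ω hω
      rw [abs_div, abs_of_pos he]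
      exact div_le_div_of_nonneg_right (hk ω hω) he.le) K (chg_sub S.tr _ he hK) (by
      have h2 : Typ (S := (tZ ha hr).l.sp) (fun k (ω : (Z.l k).T.Ω) =>
        2 ^ (2 * lam k ω * (S.F k).n) ≤ K k * (jac (z.R.p k ω) (Q.v k ((Z.l k).p.π ω))).det ^ 2) := hdet
      refine Typ.mono (S := (tZ ha hr).l.sp) h2 (Eventually.of_forall fun k ω _ h3 => ?_)
      have e1 : 2 * (lam k ω / (a + Z.u * r)) * ((S.chg S.tr (a + Z.u * r) he).F k).n = 2 * lam k ω * (S.F k).n := by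
        show 2 * (lam k ω / (a + Z.u * r)) * ((a + Z.u * r) * (S.F k).n) = _
        field_simp
      rw [e1]
      exact h3)
  -- the volume of the truncated zoom
  have h2 : volCO (LC.kz (upz (tZ ha hr) (fun k => fc (F := (S.chg S.tr (a + Z.u * r) he).F k) (C k))))
      (fun i => upz (tZ ha hr) (fun k => fc (F := (S.chg S.tr (a + Z.u * r) he).F k) (A i k))) (tX z ha hr) ≤
      volCO (S := Z.sp.chg Z.sp.tr r hr)
        (LC.kz fun k => fc (F := (Z.sp.chg Z.sp.tr r hr).F k) (roz Z C k))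
        (fun j k => fc (F := (Z.sp.chg Z.sp.tr r hr).F k) (B j k)) (z.X.chg Z.sp.tr r hr) := by
    rw [← idp_vv z ha hr]
    refine volCO_dn (idp ha hr) fun y hy hyC => ⟨?_, ?_⟩
    · refine down_idp_DMf ha hr (B := B) (A := fun i => roz Z (A i)) hAB ?_
      intro j
      exact nul_trn.mp (hy j)
    · exact down_idp_kz ha hr (C := roz Z C) hyC
  have h3 : ul (fun k => ∑ ω, ((tZ ha hr).l k).T.μ ω * (lam k ω / (a + Z.u * r))) =
      ul (fun k => ∑ ω, (Z.l k).T.μ ω * lam k ω) / (a + Z.u * r) := by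
    have e1 : (fun k => ∑ ω, ((tZ ha hr).l k).T.μ ω * (lam k ω / (a + Z.u * r))) =
        fun k => (a + Z.u * r)⁻¹ * ∑ ω, (Z.l k).T.μ ω * lam k ω := by
      funext k
      rw [Finset.mul_sum]
      exact Finset.sum_congr rfl fun ω _ => by
        show (Z.l k).T.μ ω * (lam k ω / (a + Z.u * r)) = _
        ring
    rw [e1, ul_const_mul _ ?_]
    · ring
    · refine ⟨Cl, ?_⟩
      filter_upwards [hlb] with k hk
      refine (Finset.abs_sum_le_sum_abs _ _).trans ?_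
      have h4 : ∀ ω ∈ (Finset.univ : Finset (Z.l k).T.Ω), |(Z.l k).T.μ ω * lam k ω| ≤ (Z.l k).T.μ ω * Cl := by
        intro ω _
        rw [abs_mul, abs_of_nonneg ((Z.l k).T.nn ω)]
        by_cases h0 : (Z.l k).T.μ ω = 0
        · rw [h0, zero_mul, zero_mul]
        · exact mul_le_mul_of_nonneg_left (hk ω h0) ((Z.l k).T.nn ω)
      refine (Finset.sum_le_sum h4).trans (le_of_eq ?_)
      rw [← Finset.sum_mul]
      have h5 : ∑ ω, (Z.l k).T.μ ω = 1 := (Z.l k).T.ms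
      rw [h5, one_mul]
  set v1 := volCO (S := S.chg S.tr (a + Z.u * r) he)
        (LC.kz fun k => fc (F := (S.chg S.tr (a + Z.u * r) he).F k) (C k))
        (fun i k => fc (F := (S.chg S.tr (a + Z.u * r) he).F k) (A i k)) (Q.chg S.tr (a + Z.u * r) he)
  set v2 := volCO (LC.kz (upz (tZ ha hr) (fun k => fc (F := (S.chg S.tr (a + Z.u * r) he).F k) (C k))))
      (fun i => upz (tZ ha hr) (fun k => fc (F := (S.chg S.tr (a + Z.u * r) he).F k) (A i k))) (tX z ha hr)
  set v3 := volCO (S := Z.sp.chg Z.sp.tr r hr)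
        (LC.kz fun k => fc (F := (Z.sp.chg Z.sp.tr r hr).F k) (roz Z C k))
        (fun j k => fc (F := (Z.sp.chg Z.sp.tr r hr).F k) (B j k)) (z.X.chg Z.sp.tr r hr)
  have h4 : v1 ≤ M - ul (fun k => ∑ ω, ((tZ ha hr).l k).T.μ ω * (lam k ω / (a + Z.u * r))) -
    Z.u * r / (a + Z.u * r) * (M - v2) := h1
  rw [h3] at h4
  have h5 : (a + Z.u * r) * v1 ≤ (a + Z.u * r) * (M - ul (fun k => ∑ ω, (Z.l k).T.μ ω * lam k ω) / (a + Z.u * r) -
    Z.u * r / (a + Z.u * r) * (M - v2)) := mul_le_mul_of_nonneg_left h4 he.le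
  have e5 : (a + Z.u * r) * (M - ul (fun k => ∑ ω, (Z.l k).T.μ ω * lam k ω) / (a + Z.u * r) -
    Z.u * r / (a + Z.u * r) * (M - v2)) = (a + Z.u * r) * M - ul (fun k => ∑ ω, (Z.l k).T.μ ω * lam k ω) -
      Z.u * r * (M - v2) := by
    field_simp
  rw [e5] at h5
  have h6 : Z.u * r * (M - v3) ≤ Z.u * r * (M - v2) :=
    mul_le_mul_of_nonneg_left (by linarith) (mul_pos Z.hu hr).le
  linarith

end vo

end

end Pool.Agent.Helper93.FST
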