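import Mathlib

/-! EXPONENTS OF A DEFICIENT WINDOW, real part: codimensions `u` and entropies `h` as functions of the level. -/

set_option autoImplicit false

namespace Pool.Agent.Helper93.FST

open Finset Filter Topology Set

noncomputable section

variable {N : ℕ} {c B : ℝ} {u h : ℝ → ℝ}

/-- levels with a deficit: the codimension is constant -/
theorem exr_const (hB : 0 ≤ B)
    (um : ∀ e e', c ≤ e → e ≤ e' → e' ≤ 1 → u e ≤ u e' ∧ u e' ≤ u e + B * (e' - e))
    (hX : ∀ b, c < b → b ≤ 1 → h b < N * b - u b → ∃ e, c ≤ e ∧ e < b ∧ u b ≤ u e) {x y : ℝ} (hx : c ≤ x)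
    (hxy : x ≤ y) (hy : y ≤ 1) (hD : ∀ z, x < z → z < y → h z < N * z - u z) : u y = u x := by
  -- interior points
  have key : ∀ z, x ≤ z → z < y → u z = u x := by
    intro z hxz hzy
    set T : Set ℝ := {e | x ≤ e ∧ e ≤ z ∧ u z ≤ u e} with hT
    have hTz : z ∈ T := ⟨hxz, le_rfl, le_rfl⟩
    have hbd : BddBelow T := ⟨x, fun e he => he.1⟩
    set e0 := sInf T with he0
    have h1 : x ≤ e0 := le_csInf ⟨z, hTz⟩ fun e he => he.1
    have h2 : e0 ≤ z := csInf_le hbd hTz
    -- the infimum is attained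
    have h3 : u z ≤ u e0 := by
      apply le_of_forall_pos_le_add
      intro δ hδ
      obtain ⟨e, he, he'⟩ := exists_lt_of_csInf_lt ⟨z, hTz⟩ (show sInf T < e0 + δ / (B + 1) by
        have : 0 < δ / (B + 1) := by positivity
        linarith)
      have h4 : e0 ≤ e := csInf_le hbd he
      have h5 := (um e0 e (hx.trans h1) h4 (he.2.1.trans (hzy.le.trans hy))).2
      have h6 : B * (e - e0) ≤ δ := by
        have h7 : e - e0 ≤ δ / (B + 1) := by linarith
        have h8 : B * (e - e0) ≤ (B + 1) * (δ / (B + 1)) := by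
          apply mul_le_mul _ h7 (by linarith) (by positivity)
          linarith
        have h9 : (B + 1) * (δ / (B + 1)) = δ := by field_simp
        linarith
      linarith [he.2.2]
    have h4 : e0 = x := by
      by_contra hne
      have h5 : x < e0 := lt_of_le_of_ne h1 (Ne.symm hne)
      obtain ⟨e, he1, he2, he3⟩ := hX e0 (hx.trans_lt h5) (h2.trans (hzy.le.trans hy)) (hD e0 h5 (h2.trans_lt hzy))
      rcases le_or_gt x e with h6 | h6
      · have h7 : e ∈ T := ⟨h6, he2.le.trans h2, h3.trans he3⟩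
        have h8 : e0 ≤ e := csInf_le hbd h7
        linarith
      · have h7 := (um e x he1 h6.le (h5.le.trans (h2.trans (hzy.le.trans hy)))).1
        have h8 : x ∈ T := ⟨le_rfl, hxz, h3.trans (he3.trans h7)⟩
        have h9 : e0 ≤ x := csInf_le hbd h8
        linarith
    rw [h4] at h3
    exact le_antisymm h3 (um x z hx hxz (hzy.le.trans hy)).1
  apply le_antisymm _ (um x y hx hxy hy).1
  rcases hxy.eq_or_lt with h0 | h0
  · rw [h0]
  apply le_of_forall_pos_le_add
  intro δ hδ
  set t := min (δ / (B + 1)) (y - x) with ht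
  have ht0 : 0 < t := lt_min (by positivity) (by linarith)
  have h1 : t ≤ y - x := min_le_right _ _
  have h2 := key (y - t) (by linarith) (by linarith)
  have h3 := (um (y - t) y (by linarith) (by linarith) hy).2
  have h4 : B * (y - (y - t)) ≤ δ := by
    have h5 : t ≤ δ / (B + 1) := min_le_left _ _
    have h6 : B * (y - (y - t)) ≤ (B + 1) * (δ / (B + 1)) := by
      apply mul_le_mul _ (by linarith) (by linarith) (by positivity)
      linarith
    have h7 : (B + 1) * (δ / (B + 1)) = δ := by field_simp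
    linarith
  linarith

/-- closed zero sets -/
theorem exr_cl (hB : 0 ≤ B)
    (um : ∀ e e', c ≤ e → e ≤ e' → e' ≤ 1 → u e ≤ u e' ∧ u e' ≤ u e + B * (e' - e))
    (hm : ∀ e e', c ≤ e → e ≤ e' → e' ≤ 1 → h e ≤ h e' ∧ h e' ≤ h e + N * (e' - e)) :
    ContinuousOn (fun e => N * e - u e - h e) (Icc c 1) := by
  have h1 : LipschitzOnWith (2 * N + B.toNNReal : NNReal) (fun e => N * e - u e - h e) (Icc c 1) := by
    apply LipschitzOnWith.of_dist_le_mul
    have key : ∀ x ∈ Icc c 1, ∀ y ∈ Icc c 1, x ≤ y →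
        dist (N * x - u x - h x) (N * y - u y - h y) ≤ (2 * N + B.toNNReal : NNReal) * dist x y := by
      intro x hx y hy hxy
      have h1 := um x y hx.1 hxy hy.2
      have h2 := hm x y hx.1 hxy hy.2
      have h3 : (0 : ℝ) ≤ N * (y - x) := mul_nonneg (Nat.cast_nonneg N) (by linarith)
      have h4 : 0 ≤ B * (y - x) := mul_nonneg hB (by linarith)
      rw [Real.dist_eq, Real.dist_eq, abs_sub_comm x y, abs_of_nonneg (by linarith : 0 ≤ y - x)]
      push_cast
      rw [Real.coe_toNNReal B hB, abs_le]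
      constructor <;> nlinarith
    intro x hx y hy
    rcases le_total x y with hxy | hxy
    · exact key x hx y hy hxy
    · rw [dist_comm, dist_comm x y]
      exact key y hy x hx hxy
  exact h1.continuousOn

/-- THE EXPONENTS OF A DEFICIENT WINDOW -/
theorem exr (hc1 : c < 1) (hB : 0 ≤ B)
    (um : ∀ e e', c ≤ e → e ≤ e' → e' ≤ 1 → u e ≤ u e' ∧ u e' ≤ u e + B * (e' - e))
    (hm : ∀ e e', c ≤ e → e ≤ e' → e' ≤ 1 → h e ≤ h e' ∧ h e' ≤ h e + N * (e' - e))
    (hu : ∀ e, c ≤ e → e ≤ 1 → h e ≤ N * e - u e) (uc : u c = N * c) (hc0 : 0 ≤ h c)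
    (hX : ∀ b, c < b → b ≤ 1 → h b < N * b - u b → ∃ e, c ≤ e ∧ e < b ∧ u b ≤ u e) (hd : h 1 < N - u 1)
    (hL : ∀ b, c ≤ b → b < 1 → h b = N * b - u b → ∃ E : Fin N → ℝ, (∀ i, E i ≤ b) ∧
      ∀ e, c ≤ e → e ≤ b → h e = ∑ i, max (e - E i) 0) :
    ∃ E : Fin N → ℝ, (∀ i, c ≤ E i ∧ E i < 1) ∧ ∀ e, c ≤ e → e ≤ 1 → u e = ∑ i, min (E i) e := by
  have hcont := exr_cl hB um hm
  have hDc : N * c - u c - h c = 0 := by
    have h1 := hu c le_rfl hc1.le
    rw [uc] at h1 ⊢
    linarith
  -- the last level without a deficit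
  set Z : Set ℝ := {b | b ∈ Icc c 1 ∧ N * b - u b - h b = 0} with hZ
  have hZc : IsClosed Z := by
    have h1 := hcont.preimage_isClosed_of_isClosed isClosed_Icc (isClosed_singleton (x := (0 : ℝ)))
    exact h1
  have hcZ : c ∈ Z := ⟨⟨le_rfl, hc1.le⟩, hDc⟩
  have hZb : BddAbove Z := ⟨1, fun b hb => hb.1.2⟩
  set b2 := sSup Z with hb2
  have hb2Z : b2 ∈ Z := hZc.csSup_mem ⟨c, hcZ⟩ hZb
  have hcb : c ≤ b2 := hb2Z.1.1
  have hb21 : b2 < 1 := by
    rcases hb2Z.1.2.eq_or_lt with h1 | h1
    · exfalso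
      have h2 := hb2Z.2
      rw [h1, mul_one] at h2
      linarith
    · exact h1
  have hafter : ∀ z, b2 < z → z ≤ 1 → h z < N * z - u z := by
    intro z hz hz1
    have h1 := hu z (hcb.trans hz.le) hz1
    rcases h1.lt_or_eq with h2 | h2
    · exact h2
    · exfalso
      have h3 : z ∈ Z := ⟨⟨hcb.trans hz.le, hz1⟩, by linarith⟩
      have h4 : z ≤ b2 := le_csSup hZb h3
      linarith
  -- no deficit below
  have hbelow : ∀ b, c ≤ b → b ≤ b2 → h b = N * b - u b := by
    intro b hb hbb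
    have h1 := hu b hb (hbb.trans hb21.le)
    rcases h1.lt_or_eq with h2 | h2
    · exfalso
      set Y : Set ℝ := {x | x ∈ Z ∧ b ≤ x} with hY
      have hYc : IsClosed Y := hZc.inter isClosed_Ici
      have hYb : BddBelow Y := ⟨b, fun x hx => hx.2⟩
      have hYn : Y.Nonempty := ⟨b2, hb2Z, hbb⟩
      set bp := sInf Y with hbp
      have hbpY : bp ∈ Y := hYc.csInf_mem hYn hYb
      have h3 : ∀ z, b < z → z < bp → h z < N * z - u z := by
        intro z hz hz2
        have h4 := hu z (hb.trans hz.le) (hz2.le.trans hbpY.1.1.2)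
        rcases h4.lt_or_eq with h5 | h5
        · exact h5
        · exfalso
          have h6 : z ∈ Y := ⟨⟨⟨hb.trans hz.le, hz2.le.trans hbpY.1.1.2⟩, by linarith⟩, hz.le⟩
          have h7 : bp ≤ z := csInf_le hYb h6
          linarith
      have h4 := exr_const hB um hX hb hbpY.2 hbpY.1.1.2 h3
      have h5 := (hm b bp hb hbpY.2 hbpY.1.1.2).2
      have h6 := hbpY.1.2
      rw [h4] at h6
      linarith
    · exact h2
  obtain ⟨E, hE, hE2⟩ := hL b2 hcb hb21 (hbelow b2 hcb le_rfl)
  have hu2 : ∀ e, c ≤ e → e ≤ b2 → u e = ∑ i, min (E i) e := by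
    intro e he he2
    have h1 := hbelow e he he2
    rw [hE2 e he he2] at h1
    have h2 : ∑ i, min (E i) e + ∑ i, max (e - E i) 0 = N * e := by
      rw [← Finset.sum_add_distrib]
      have h3 : ∀ i ∈ (univ : Finset (Fin N)), min (E i) e + max (e - E i) 0 = e := by
        intro i _
        rcases le_total (E i) e with h4 | h4
        · rw [min_eq_left h4, max_eq_left (by linarith)]
          ring
        · rw [min_eq_right h4, max_eq_right (by linarith)]
          ring
      rw [Finset.sum_congr rfl h3, Finset.sum_const, Finset.card_univ, Fintype.card_fin, nsmul_eq_mul]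
    linarith
  refine ⟨E, fun i => ⟨?_, (hE i).trans_lt hb21⟩, fun e he he1 => ?_⟩
  · have h1 := hu2 c le_rfl hcb
    rw [uc] at h1
    by_contra hcon
    rw [not_le] at hcon
    have h2 : ∑ i, min (E i) c < ∑ _i : Fin N, c := by
      apply Finset.sum_lt_sum (fun i _ => min_le_right _ _) ⟨i, Finset.mem_univ i, ?_⟩
      rw [min_eq_left hcon.le]
      exact hcon
    rw [Finset.sum_const, Finset.card_univ, Fintype.card_fin, nsmul_eq_mul] at h2
    linarith
  · rcases le_total e b2 with h1 | h1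
    · exact hu2 e he h1
    · have h2 := exr_const hB um hX hcb h1 he1 (fun z hz hz2 => hafter z hz (hz2.le.trans he1))
      rw [h2, hu2 b2 hcb le_rfl]
      refine Finset.sum_congr rfl fun i _ => ?_
      rw [min_eq_left (hE i), min_eq_left ((hE i).trans h1)]

end

end Pool.Agent.Helper93.FST
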