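import Pool.Agent.Helper71.VIS.Trk

/-! VOLUMES OF TRUNCATIONS: forms of the point give forms of the truncated point in the same degree; the volume of a fixed
degree is Lipschitz in the level. -/

set_option autoImplicit false

namespace Pool.Agent.Helper93.FST

open Finset Filter Topology Matrix MvPolynomial Pool.Agent.Helper69.RK Pool.Agent.Helper31.EC
open Pool.Agent.Helper31.EC.Sp
open Pool.Agent.Helper40.EL Pool.Agent.Helper89.LX Pool.Agent.Helper3.LF Pool.Agent.Helper84.MT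
open Pool.Agent.Helper95.LF
open Pool.Agent.Helper26.BXD
open Pool.Agent.Helper14.MC (gx vx vx_UB vol_eq)
open Pool.Agent.Helper52.SL (untF tnF untL tnL nul_trn cellv_chg untF_leak tnF_leak)
open Pool.Agent.Helper3.PR (cutm cutm_cpd cutFD)
open Pool.Agent.Helper71.VIS
open Pool.Agent.Helper7.RD (volC volCO volC_eq volC_le_of volCO_le)
open Pool.Agent.Helper87.NSL (cndR KnS)
open Pool.Agent.Helper29.MX

noncomputable section

variable {S : Sp} {M D : ℕ} {κ ι : Type} {E : ℕ → ℕ}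

/-- the factor of the form -/
def kpf (S : Sp) (D : ℕ) (e : ℝ) (k : ℕ) : ℝ := (S.dl (1 - e) k) ^ (2 * D)

theorem kpf_pos (e : ℝ) (k : ℕ) : 0 < kpf S D e k := pow_pos (S.dl_pos _ k) _

theorem dla (S : Sp) {a b : ℝ} (h : a ≤ b) (k : ℕ) : S.dl b k ≤ S.dl a k := Pool.Agent.Helper71.VIS.dl_anti S h k

theorem dl_le_one' {r : ℝ} (h : 0 ≤ r) (k : ℕ) : S.dl r k ≤ 1 := by
  have h1 := dla S h k
  have h2 : S.dl 0 k = 1 := by unfold Sp.dl; simp
  rwa [h2] at h1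

theorem kpf_le {e : ℝ} (h1 : e ≤ 1) (k : ℕ) : kpf S D e k ≤ 1 :=
  pow_le_one₀ (S.dl_pos _ k).le (dl_le_one' (by linarith) k)

theorem dl_mul (a b : ℝ) (k : ℕ) : S.dl a k * S.dl b k = S.dl (a + b) k := by
  unfold Sp.dl
  rw [← Real.rpow_add (by norm_num)]
  congr 1
  ring

variable (Q : S.VV M) (e : ℝ) (he : 0 < e) (x : ∀ k, FD (S.F k) (Mon M D))

/-- the matrices of the form -/
def lG (k : ℕ) (ω : ((tnL e he (lb x)) k).T.Ω) : Matrix (Mon M D) (Mon M D) ℝ :=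
  1 + kpf S D e k • cutm ((gaq Q D).cp k) ((x k).g ω)

theorem lG_ms (k : ℕ) (ω ω' : ((tnL e he (lb x)) k).T.Ω) (a : ((tnL e he (lb x)) k).T.μ ω ≠ 0)
    (b : ((tnL e he (lb x)) k).T.μ ω' ≠ 0) (c : ((tnL e he (lb x)) k).V ω ω')
    (d : ((tnL e he (lb x)) k).T.Z ω ω') : lG Q e he x k ω = lG Q e he x k ω' := by
  unfold lG
  rw [((x k).meas ω ω' a b c d).1]

/-- the form of the truncated point -/
def tnFD : ∀ k, FD ((S.chg S.tr e he).F k) (Mon M D) :=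
  cutFD (gaq (Q.chg S.tr e he) D) (tnL e he (lb x)) (lG Q e he x) (lG_ms Q e he x)

variable {Q e he x}

theorem lG_one (k : ℕ) (ω : ((tnL e he (lb x)) k).T.Ω) : (lG Q e he x k ω).IsSymm ∧
    ∀ v, v ⬝ᵥ v ≤ qf (lG Q e he x k ω) v := by
  have h1 := cutm_cpd ((gaq Q D).one_le_cp k) ((x k).g ω)
  refine ⟨?_, fun v => ?_⟩
  · unfold lG Matrix.IsSymm
    rw [Matrix.transpose_add, Matrix.transpose_smul, Matrix.transpose_one, h1.1.eq]
  · unfold lG qf
    rw [dv_add, dv_smul, Matrix.one_mulVec]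
    have h2 : 0 ≤ v ⬝ᵥ (cutm ((gaq Q D).cp k) ((x k).g ω) *ᵥ v) := h1.psd.2 v
    have h3 := mul_nonneg (kpf_pos (S := S) (D := D) e k).le h2
    linarith

theorem kpf_mul (k : ℕ) : kpf S D e k * (S.dl e k / S.dl 1 k) ^ (2 * D) = 1 := by
  unfold kpf
  rw [← mul_pow]
  have h1 : S.dl (1 - e) k * (S.dl e k / S.dl 1 k) = 1 := by
    rw [← mul_div_assoc, dl_mul, sub_add_cancel, div_self (S.dl_pos 1 k).ne']
  rw [h1, one_pow]

/-- the form on the larger cell -/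
theorem phi_lG (h1 : e ≤ 1) {A : Matrix (Mon M D) (Mon M D) ℝ} (hA : PdM A) (k : ℕ) (v : Fin M → ℝ) :
    phi (S.dl e k) (1 + kpf S D e k • A) v ≤
      phi (S.dl e k) (1 : Matrix (Mon M D) (Mon M D) ℝ) v + cQ M D * phi (S.dl 1 k) A v := by
  rw [phi_add, phi_smul]
  have hK : 1 ≤ S.dl e k / S.dl 1 k := (one_le_div₀ (S.dl_pos 1 k)).2 (dla S h1 k)
  have h2 := phi_comp A hA (S.dl 1 k) (S.dl e k) (S.dl e k / S.dl 1 k) (S.dl_pos 1 k) (S.dl_pos e k).le hK v v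
    fun i => by rw [sub_self, abs_zero, zero_add, div_mul_cancel₀ _ (S.dl_pos 1 k).ne']
  have h3 := mul_le_mul_of_nonneg_left h2 (kpf_pos (S := S) (D := D) e k).le
  have e1 : kpf S D e k * (nn M D * (Cu D * Cm M D * (S.dl e k / S.dl 1 k) ^ D) ^ 2 * phi (S.dl 1 k) A v) =
      cQ M D * (kpf S D e k * (S.dl e k / S.dl 1 k) ^ (2 * D)) * phi (S.dl 1 k) A v := by
    unfold cQ
    ring
  rw [e1, kpf_mul, mul_one] at h3
  linarith

/-- the determinant on the larger cell -/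
theorem GQ_lG (h1 : e ≤ 1) {A : Matrix (Mon M D) (Mon M D) ℝ} (hA : PdM A) (k : ℕ) (v : Fin M → ℝ) :
    GQ (S.dl 1 k) A v ≤ (cQ M D * (kpf S D e k)⁻¹) ^ M * GQ (S.dl e k) (1 + kpf S D e k • A) v := by
  have hk := kpf_pos (S := S) (D := D) e k
  have hk1 := kpf_le (S := S) (D := D) h1 k
  have hs : (1 + kpf S D e k • A).IsSymm := by
    unfold Matrix.IsSymm
    rw [Matrix.transpose_add, Matrix.transpose_smul, Matrix.transpose_one, hA.1.eq]
  have hq : ∀ y, y ⬝ᵥ ((1 + kpf S D e k • A) *ᵥ y) = y ⬝ᵥ y + kpf S D e k * (y ⬝ᵥ (A *ᵥ y)) := by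
    intro y
    rw [dv_add, dv_smul, Matrix.one_mulVec]
  have hp : ∀ y, 0 ≤ y ⬝ᵥ ((1 + kpf S D e k • A) *ᵥ y) := by
    intro y
    rw [hq]
    exact add_nonneg (dot_self_nonneg y) (mul_nonneg hk.le (hA.nonneg y))
  refine GQ_le_of (S.dl e k) (S.dl 1 k) (1 + kpf S D e k • A) A hs hp hA.1 hA.nonneg v v _
    (one_le_mul_of_one_le_of_one_le (cQ_one M D) ((one_le_inv₀ hk).2 hk1)) fun z => ?_
  have h2 := Jq_comp' A hA (S.dl e k) (S.dl 1 k) 1 (S.dl_pos e k) (S.dl_pos 1 k).le le_rfl v v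
    (fun i => by
      rw [sub_self, abs_zero, zero_add, one_mul]
      exact dla S h1 k) z
  rw [one_pow, mul_one] at h2
  have h3 : z ⬝ᵥ (Jq (S.dl e k) A v *ᵥ z) ≤ (kpf S D e k)⁻¹ *
      (z ⬝ᵥ (Jq (S.dl e k) (1 + kpf S D e k • A) v *ᵥ z)) := by
    have h4 := Jq_mono (S.dl e k) (A := kpf S D e k • A) (B := 1 + kpf S D e k • A) (fun y => by
      rw [hq, dv_smul]
      linarith [dot_self_nonneg y]) v z
    have h5 : z ⬝ᵥ (Jq (S.dl e k) (kpf S D e k • A) v *ᵥ z) = kpf S D e k * (z ⬝ᵥ (Jq (S.dl e k) A v *ᵥ z)) := by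
      rw [Jq_qf, Jq_qf, Finset.mul_sum]
      exact Finset.sum_congr rfl fun j _ => dv_smul _ _ _
    rw [h5] at h4
    rw [inv_mul_eq_div, le_div_iff₀ hk, mul_comm]
    exact h4
  calc z ⬝ᵥ (Jq (S.dl 1 k) A v *ᵥ z) ≤ cQ M D * (z ⬝ᵥ (Jq (S.dl e k) A v *ᵥ z)) := h2
    _ ≤ cQ M D * ((kpf S D e k)⁻¹ * (z ⬝ᵥ (Jq (S.dl e k) (1 + kpf S D e k • A) v *ᵥ z))) :=
        mul_le_mul_of_nonneg_left h3 (by linarith [cQ_one M D])
    _ = _ := by rw [mul_assoc]

/-- typically the form is small -/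
theorem lG_typ (h1 : e ≤ 1) {A : κ → Part S} (hx : (gaq Q D).Adf A x) (η : ℝ) (hη : 0 < η) :
    Tendsto (fun k => ((tnL e he (lb x)) k).T.pb (fun ω =>
      ¬ (gaq (Q.chg S.tr e he) D).φ k (((tnL e he (lb x)) k).p.π ω) (lG Q e he x k ω) ≤
        2 ^ (η * ((S.chg S.tr e he).F k).n))) UF (𝓝 0) := by
  obtain ⟨K, hK, hb⟩ := (gaq (Q.chg S.tr e he) D).one
  have hcQ : (0 : ℝ) ≤ cQ M D := by linarith [cQ_one M D]
  have hη' : 0 < η * e := mul_pos hη he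
  rw [Metric.tendsto_nhds]
  intro ε hε
  set δ : ℝ := min (ε / 2) (η * e / 2) with hδ
  have hδ0 : 0 < δ := lt_min (by linarith) (by linarith)
  filter_upwards [hx δ hδ0, hK.eventually_le (by linarith : 0 < η / 4), hb,
    (S.Sub_const hcQ).eventually_le (by linarith : 0 < η * e / 4),
    (S.Sub_const (zero_le_one.trans one_le_two)).eventually_le (by linarith : 0 < η * e / 4)] with k hk hK' hb' hc' h2'
  rw [Real.dist_eq, sub_zero, abs_of_nonneg (((tnL e he (lb x)) k).T.pb_nonneg _)]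
  have hn := (S.F k).pos
  obtain ⟨-, hcap, hp, -⟩ := hk
  have h2 : ((tnL e he (lb x)) k).T.pb (fun ω =>
      ¬ (gaq (Q.chg S.tr e he) D).φ k (((tnL e he (lb x)) k).p.π ω) (lG Q e he x k ω) ≤
        2 ^ (η * ((S.chg S.tr e he).F k).n)) ≤ (x k).l.T.pb (fun ω => ¬ (gaq Q D).φ k ((x k).l.p.π ω) ((x k).g ω) ≤
        2 ^ (δ * (S.F k).n)) := by
    refine FSp.pb_mono (x k).l.T ?_
    intro ω hω h3 h4
    apply h3
    have hcp := (hcap ω hω).1
    have e1 : (S.chg S.tr e he).dl 1 k = S.dl e k := by rw [chg_dl, mul_one]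
    have hω' := (x k).l.p.supp ω hω
    have h5 : (gaq (Q.chg S.tr e he) D).φ k ((x k).l.p.π ω) 1 ≤ K k := hb' _ hω'
    have h6 : phi ((S.chg S.tr e he).dl 1 k) (1 : Matrix (Mon M D) (Mon M D) ℝ) (Q.v k ((x k).l.p.π ω)) ≤ K k := h5
    rw [e1] at h6
    show phi ((S.chg S.tr e he).dl 1 k) (1 + kpf S D e k • cutm ((gaq Q D).cp k) ((x k).g ω))
      (Q.v k ((x k).l.p.π ω)) ≤ _
    rw [e1, cutm_pos hcp]
    refine (phi_lG h1 hcp.pdM k _).trans ?_
    have h7 : phi (S.dl 1 k) ((x k).g ω) (Q.v k ((x k).l.p.π ω)) ≤ 2 ^ (δ * (S.F k).n) := h4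
    have h8 : (2 : ℝ) ^ (δ * (S.F k).n) ≤ 2 ^ (η * e / 2 * (S.F k).n) := by
      apply Real.rpow_le_rpow_of_exponent_le (by norm_num)
      exact mul_le_mul_of_nonneg_right (min_le_right _ _) hn.le
    have h9 : cQ M D * phi (S.dl 1 k) ((x k).g ω) (Q.v k ((x k).l.p.π ω)) ≤
        2 ^ (η * e / 4 * (S.F k).n) * 2 ^ (η * e / 2 * (S.F k).n) :=
      mul_le_mul (by linarith) (h7.trans h8) (phi_nonneg _ hcp.psd.2 _) (by positivity)
    rw [← Real.rpow_add (by norm_num)] at h9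
    have h10 : (2 : ℝ) ^ (η * e / 4 * (S.F k).n) ≤ 2 ^ (η * e / 4 * (S.F k).n + η * e / 2 * (S.F k).n) := by
      apply Real.rpow_le_rpow_of_exponent_le (by norm_num)
      have : 0 ≤ η * e / 2 * (S.F k).n := by positivity
      linarith
    have h11 : K k ≤ 2 ^ (η * e / 4 * (S.F k).n) := by
      have h12 : K k + 2 ≤ 2 ^ (η / 4 * (e * (S.F k).n)) := hK'
      have e2 : η / 4 * (e * (S.F k).n) = η * e / 4 * (S.F k).n := by ring
      rw [e2] at h12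
      linarith
    have h13 : (2 : ℝ) ^ (η * e / 4 * (S.F k).n + η * e / 2 * (S.F k).n) * 2 ^ (η * e / 4 * (S.F k).n) =
        2 ^ (η * (e * (S.F k).n)) := by
      rw [← Real.rpow_add (by norm_num)]
      congr 1
      ring
    have h14 : (2 : ℝ) ≤ 2 ^ (η * e / 4 * (S.F k).n) := by linarith
    show _ ≤ (2 : ℝ) ^ (η * (e * (S.F k).n))
    rw [← h13]
    have h15 : (0 : ℝ) ≤ 2 ^ (η * e / 4 * (S.F k).n + η * e / 2 * (S.F k).n) := by positivity
    calc _ ≤ (2 : ℝ) ^ (η * e / 4 * (S.F k).n + η * e / 2 * (S.F k).n) * 2 := by linarith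
      _ ≤ _ := mul_le_mul_of_nonneg_left h14 h15
  calc _ ≤ _ := h2
    _ ≤ δ := hp
    _ ≤ ε / 2 := min_le_left _ _
    _ < ε := by linarith

/-- typically nothing is cut off -/
theorem lG_cpd (h1 : e ≤ 1) {A : κ → Part S} (hx : (gaq Q D).Adf A x) :
    Tendsto (fun k => ((tnL e he (lb x)) k).T.pb (fun ω => ¬ Cpd ((gaq (Q.chg S.tr e he) D).cp k) (lG Q e he x k ω)))
      UF (𝓝 0) :=
  cut_typ_eta (Φ := gaq (Q.chg S.tr e he) D) (tnL e he (lb x)) (lG Q e he x)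
    (Eventually.of_forall fun k ω _ => lG_one k ω) (lG_typ h1 hx)

/-- THE FORM OF THE TRUNCATED POINT -/
theorem tnFD_adf [Finite κ] (h1 : e ≤ 1) {B : κ → ∀ k, Setoid (S.F k).Ω} (hx : (gaq Q D).Adf (fcs S B) x) :
    (gaq (Q.chg S.tr e he) D).Adf (fcs (S.chg S.tr e he) B) (tnFD Q e he x) :=
  cut_adf_eta (Φ := gaq (Q.chg S.tr e he) D) (tnL e he (lb x)) (tnL_DMf.2 hx.dm) (lG Q e he x) (lG_ms Q e he x)
    (Eventually.of_forall fun k ω _ => lG_one k ω) (lG_typ h1 hx)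

/-- the error of the exponents -/
def erx (S : Sp) (M D : ℕ) (e : ℝ) (k : ℕ) : ℝ := M * D * (1 - e) + M * Real.logb 2 (cQ M D) / (2 * (S.F k).n)

theorem gx_lG (h1 : e ≤ 1) {A : Matrix (Mon M D) (Mon M D) ℝ} (hA : PdM A) (k : ℕ) (ω : (S.F k).Ω) :
    gx Q k ω A ≤ e * gx (Q.chg S.tr e he) k ω (1 + kpf S D e k • A) + erx S M D e k := by
  rw [r_gx]
  unfold gx erx
  have hn := (S.F k).pos
  have h2 := GQ_lG (S := S) h1 hA k (Q.v k ω)
  have h3 := one_le_GQ (S.dl 1 k) hA.1 hA.nonneg (Q.v k ω)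
  have hs : (1 + kpf S D e k • A).IsSymm := by
    unfold Matrix.IsSymm
    rw [Matrix.transpose_add, Matrix.transpose_smul, Matrix.transpose_one, hA.1.eq]
  have hp : ∀ y, 0 ≤ y ⬝ᵥ ((1 + kpf S D e k • A) *ᵥ y) := by
    intro y
    rw [dv_add, dv_smul, Matrix.one_mulVec]
    exact add_nonneg (dot_self_nonneg y) (mul_nonneg (kpf_pos e k).le (hA.nonneg y))
  have h4 := one_le_GQ (S.dl e k) hs hp (Q.v k ω)
  have hc := cQ_one M D
  have h5 := Real.logb_le_logb_of_le (b := 2) (by norm_num) (by linarith) h2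
  have hk := kpf_pos (S := S) (D := D) e k
  have e1 : Real.logb 2 ((cQ M D * (kpf S D e k)⁻¹) ^ M * GQ (S.dl e k) (1 + kpf S D e k • A) (Q.v k ω)) =
      M * (Real.logb 2 (cQ M D) + 2 * D * ((1 - e) * (S.F k).n)) +
        Real.logb 2 (GQ (S.dl e k) (1 + kpf S D e k • A) (Q.v k ω)) := by
    have e3 : Real.logb 2 (kpf S D e k) = -(2 * D * ((1 - e) * (S.F k).n)) := by
      unfold kpf Sp.dl
      rw [← Real.rpow_natCast, ← Real.rpow_mul (by norm_num), Real.logb_rpow (by norm_num) (by norm_num)]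
      push_cast
      ring
    rw [Real.logb_mul (pow_pos (mul_pos (by linarith) (inv_pos.2 hk)) _).ne' (by linarith), Real.logb_pow,
      Real.logb_mul (by linarith) (inv_pos.2 hk).ne', Real.logb_inv, e3, neg_neg]
  rw [e1] at h5
  have h6 : Real.logb 2 (GQ (S.dl 1 k) A (Q.v k ω)) / (2 * (S.F k).n) ≤
      (M * (Real.logb 2 (cQ M D) + 2 * D * ((1 - e) * (S.F k).n)) +
        Real.logb 2 (GQ (S.dl e k) (1 + kpf S D e k • A) (Q.v k ω))) / (2 * (S.F k).n) :=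
    div_le_div_of_nonneg_right h5 (by positivity)
  refine h6.trans (le_of_eq ?_)
  field_simp
  ring

theorem lpd_aux1 (h1 : e ≤ 1) {A : κ → Part S} (hx : (gaq Q D).Adf A x) (ε : ℝ) (hε : 0 < ε) :
    Tendsto (fun k => ((tnL e he (lb x)) k).T.pb (fun ω =>
      ¬ gx Q k ((x k).l.p.π ω) ((x k).g ω) ≤
        (e * gx (Q.chg S.tr e he) k ((x k).l.p.π ω) ((tnFD Q e he x k).g ω) + M * D * (1 - e)) + ε)) UF (𝓝 0) := by
  refine squeeze_zero' (Eventually.of_forall fun k => FSp.pb_nonneg _ _) ?_ (lG_cpd (he := he) h1 hx)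
  have hn1 : Tendsto (fun k => M * Real.logb 2 (cQ M D) / (2 * (S.F k).n)) UF (𝓝 0) := by
    have h2 : Tendsto (fun k => (S.F k).n) UF atTop := S.lim
    exact Tendsto.div_atTop tendsto_const_nhds (h2.const_mul_atTop (by norm_num))
  filter_upwards [hx 1 one_pos, hn1.eventually (gt_mem_nhds hε)] with k hk hn2
  refine FSp.pb_mono ((tnL e he (lb x)) k).T ?_
  intro ω hω h3 h4
  apply h3
  have hcp := (hk.2.1 ω hω).1
  have e3 : (tnFD Q e he x k).g ω = 1 + kpf S D e k • (x k).g ω := by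
    have e4 : (tnFD Q e he x k).g ω = cutm ((gaq (Q.chg S.tr e he) D).cp k) (lG Q e he x k ω) := rfl
    rw [e4, cutm_pos h4]
    unfold lG
    rw [cutm_pos hcp]
  rw [e3]
  have h5 := gx_lG (Q := Q) (he := he) h1 hcp.pdM k ((x k).l.p.π ω)
  unfold erx at h5
  linarith

theorem lpd_aux3 (k : ℕ) : ∑ ω, ((tnL e he (lb x)) k).T.μ ω *
    (e * gx (Q.chg S.tr e he) k ((x k).l.p.π ω) ((tnFD Q e he x k).g ω) + M * D * (1 - e)) =
      e * vx (Q.chg S.tr e he) (tnFD Q e he x) k + M * D * (1 - e) := by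
  have h1 : ∑ ω, ((tnL e he (lb x)) k).T.μ ω = 1 := ((tnL e he (lb x)) k).T.ms
  unfold vx
  rw [Finset.mul_sum]
  have h2 : ∀ ω ∈ (Finset.univ : Finset ((tnL e he (lb x)) k).T.Ω), ((tnL e he (lb x)) k).T.μ ω *
      (e * gx (Q.chg S.tr e he) k ((x k).l.p.π ω) ((tnFD Q e he x k).g ω) + M * D * (1 - e)) =
      e * (((tnL e he (lb x)) k).T.μ ω * gx (Q.chg S.tr e he) k ((x k).l.p.π ω) ((tnFD Q e he x k).g ω)) +
        ((tnL e he (lb x)) k).T.μ ω * (M * D * (1 - e)) := fun ω _ => by ring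
  rw [Finset.sum_congr rfl h2, Finset.sum_add_distrib, ← Finset.sum_mul, h1, one_mul]
  rfl

/-- **THE VOLUME OF A FIXED DEGREE IS LIPSCHITZ IN THE LEVEL** -/
theorem vol_tnFD [Finite κ] (h1 : e ≤ 1) {B : κ → ∀ k, Setoid (S.F k).Ω} (hx : (gaq Q D).Adf (fcs S B) x) :
    M - vol Q D x ≤ e * (M - vol (Q.chg S.tr e he) D (tnFD Q e he x)) + M * D * (1 - e) := by
  have hy := tnFD_adf (he := he) h1 hx
  have hUx := vx_UB hx
  have hUy := vx_UB hy
  have e1 : vol (Q.chg S.tr e he) D (tnFD Q e he x) = M - ul (vx (Q.chg S.tr e he) (tnFD Q e he x)) := vol_eq _ _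
  have e2 : vol Q D x = M - ul (vx Q x) := vol_eq _ _
  rw [e1, e2, sub_sub_cancel, sub_sub_cancel]
  have hM : (0 : ℝ) ≤ M * D * (1 - e) := by
    have : 0 ≤ 1 - e := by linarith
    positivity
  apply le_of_forall_pos_le_add
  intro ε hε
  have h4 := gx_nn hy
  have h5 : ∀ᶠ k in UF, ∑ ω, ((tnL e he (lb x)) k).T.μ ω * gx Q k ((x k).l.p.π ω) ((x k).g ω) ≤
      ∑ ω, ((tnL e he (lb x)) k).T.μ ω *
        (e * gx (Q.chg S.tr e he) k ((x k).l.p.π ω) ((tnFD Q e he x k).g ω) + M * D * (1 - e)) + ε :=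
    mean_le (F := fun k => ((tnL e he (lb x)) k).T) (fun k ω => gx Q k ((x k).l.p.π ω) ((x k).g ω))
      (fun k ω => e * gx (Q.chg S.tr e he) k ((x k).l.p.π ω) ((tnFD Q e he x k).g ω) + M * D * (1 - e))
      (((gaq Q D).C + 1 + 3) * M) (gx_bd hx) (by
        filter_upwards [h4] with k hk ω hω
        exact add_nonneg (mul_nonneg he.le (hk ω hω)) hM) (lpd_aux1 h1 hx) ε hε
  have h3 : ∀ᶠ k in UF, vx Q x k ≤ (e * vx (Q.chg S.tr e he) (tnFD Q e he x) k + M * D * (1 - e)) + ε := by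
    filter_upwards [h5] with k hk
    rw [lpd_aux3] at hk
    exact hk
  have h6 := ul_mono hUx (((hUy.const_mul e).add (UB_const _)).add (UB_const ε)) h3
  rw [ul_add ((hUy.const_mul e).add (UB_const _)) (UB_const ε), ul_add (hUy.const_mul e) (UB_const _), ul_const,
    ul_const, ul_const_mul e hUy] at h6
  exact h6

theorem tnFD_adK [Finite κ] (h1 : e ≤ 1) {B : κ → ∀ k, Setoid (S.F k).Ω} {C : ∀ k, Setoid (S.F k).Ω}
    (hx : (gaq Q D).AdfK (LC.kz fun k => fc (C k)) (fcs S B) x) :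
    (gaq (Q.chg S.tr e he) D).AdfK (LC.kz (S := S.chg S.tr e he) fun k => fc (F := (S.chg S.tr e he).F k) (C k))
      (fcs (S.chg S.tr e he) B) (tnFD Q e he x) :=
  ⟨tnFD_adf h1 hx.1, tnL_kz.2 hx.2⟩

/-- OPTIMAL VOLUMES of a fixed degree of the truncated point -/
theorem volC_lip [Finite κ] (Q : S.VV M) {e : ℝ} (he : 0 < e) (h1 : e ≤ 1) (B : κ → ∀ k, Setoid (S.F k).Ω)
    (C : ∀ k, Setoid (S.F k).Ω) (D : ℕ) :
    M - volC (LC.kz fun k => fc (C k)) (fcs S B) Q D ≤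
      e * (M - volC (LC.kz (S := S.chg S.tr e he) fun k => fc (F := (S.chg S.tr e he).F k) (C k))
        (fcs (S.chg S.tr e he) B) (Q.chg S.tr e he) D) + M * D * (1 - e) := by
  obtain ⟨x, hx⟩ := (gaq Q D).exists_optfK (LC.kz fun k => fc (C k)) (fcs S B)
  have h2 := vol_tnFD (he := he) h1 hx.1.1
  have h3 := volC_le_of (tnFD_adK (he := he) h1 hx.1)
  have h4 := volC_eq hx
  rw [h4]
  refine h2.trans (add_le_add_left (mul_le_mul_of_nonneg_left (sub_le_sub_left h3 _) he.le) _)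

variable [Finite ι]

/-- K-volumes of a fixed degree of truncations -/
theorem volK_lip (s : MSys S M E ι) {e : ℝ} (he : 0 < e) (h1 : e ≤ 1) (R : Rsl S) (D : ℕ) (c : ℝ) :
    M - volK s R D (e * c) ≤ e * (M - volK (s.trn e he h1) R D c) + M * D * (1 - e) := by
  rw [volK_eq, volK_eq, cndR_trn, cndR_fcs s]
  exact volC_lip s.Q he h1 _ R D

end

end Pool.Agent.Helper93.FST
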