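import Pool.Agent.Helper7.RD.Gw
import Pool.Agent.Helper59.OKD.Ta

/-! MARKOV INEQUALITY for polynomials which are bounded on a cell: Lipschitz bound on a smaller cell. -/

set_option autoImplicit false

namespace Pool.Agent.Helper93.FST

open Finset Filter Topology Matrix MvPolynomial Pool.Agent.Helper3.LF

noncomputable section

variable {N : ℕ}

/-- MARKOV: a polynomial of degree at most `D`, bounded by `M` at the nodes of the cell of size `r` -/
theorem cell_lip (D : ℕ) (q : MvPolynomial (Fin N) ℝ) (hq : q.totalDegree ≤ D) (p : Fin N → ℝ) (r K B : ℝ)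
    (hr : 0 < r) (hK : 1 ≤ K) (hM : ∀ j : Fin N → Fin (D + 1), |eval (nodp D p r j) q| ≤ B)
    (ε : ℝ) (hε : ε ≤ K * r) (y : Fin N → ℝ) (hy : ∀ i, |y i - p i| ≤ ε) :
    |eval y q - eval p q| ≤ N * (Cm N D * K ^ (N * D + D) * B) * (ε / r) := by
  have hd : ∀ τ : ℝ, HasDerivAt (fun s => eval (fun i => p i + s * (y i - p i)) q)
      (∑ i, eval (fun i => p i + τ * (y i - p i)) (pderiv i q) * (y i - p i)) τ := by
    intro τ
    refine Pool.Agent.Helper59.OKD.hasDerivAt_eval q (g := fun s i => p i + s * (y i - p i))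
      (g' := fun i => y i - p i) fun i => ?_
    have h1 := ((hasDerivAt_id τ).mul_const (y i - p i)).const_add (p i)
    rw [one_mul] at h1
    exact h1
  have hb : ∀ τ ∈ Set.Ico (0 : ℝ) 1, ‖∑ i, eval (fun i => p i + τ * (y i - p i)) (pderiv i q) * (y i - p i)‖ ≤
      N * (Cm N D * K ^ (N * D + D) * B) * (ε / r) := by
    intro τ hτ
    refine (norm_sum_le _ _).trans ?_
    have h1 : ∀ i ∈ (univ : Finset (Fin N)), ‖eval (fun i => p i + τ * (y i - p i)) (pderiv i q) * (y i - p i)‖ ≤
        Cm N D * K ^ (N * D + D) * B * (ε / r) := by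
      intro i _
      have hε0 : 0 ≤ ε := (abs_nonneg _).trans (hy i)
      have h2 := cell_der D q hq p r K B hr hK hM (fun i => p i + τ * (y i - p i)) (fun j => by
        have e1 : p j + τ * (y j - p j) - p j = τ * (y j - p j) := by ring
        rw [e1, abs_mul, abs_of_nonneg hτ.1]
        exact (mul_le_of_le_one_left (abs_nonneg _) hτ.2.le).trans ((hy j).trans hε)) i
      have h3 : |eval (fun i => p i + τ * (y i - p i)) (pderiv i q)| ≤ Cm N D * K ^ (N * D + D) * B / r := by
        rw [le_div_iff₀ hr, mul_comm]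
        exact h2
      rw [norm_mul, Real.norm_eq_abs, Real.norm_eq_abs]
      calc |eval (fun i => p i + τ * (y i - p i)) (pderiv i q)| * |y i - p i|
          ≤ Cm N D * K ^ (N * D + D) * B / r * ε :=
            mul_le_mul h3 (hy i) (abs_nonneg _) ((abs_nonneg _).trans h3)
        _ = _ := by ring
    refine (Finset.sum_le_card_nsmul _ _ _ h1).trans (le_of_eq ?_)
    rw [Finset.card_univ, Fintype.card_fin, nsmul_eq_mul]
    ring
  have h2 := norm_image_sub_le_of_norm_deriv_le_segment' (f := fun s => eval (fun i => p i + s * (y i - p i)) q)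
    (f' := fun τ => ∑ i, eval (fun i => p i + τ * (y i - p i)) (pderiv i q) * (y i - p i))
    (C := N * (Cm N D * K ^ (N * D + D) * B) * (ε / r)) (a := 0) (b := 1)
    (fun τ _ => (hd τ).hasDerivWithinAt) hb 1 ⟨zero_le_one, le_rfl⟩
  rw [sub_zero, mul_one, Real.norm_eq_abs] at h2
  have e1 : (fun i => p i + 1 * (y i - p i)) = y := by
    funext i
    ring
  have e2 : (fun i => p i + 0 * (y i - p i)) = p := by
    funext i
    ring
  have h3 : |eval (fun i => p i + 1 * (y i - p i)) q - eval (fun i => p i + 0 * (y i - p i)) q| ≤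
      N * (Cm N D * K ^ (N * D + D) * B) * (ε / r) := h2
  rw [e1, e2] at h3
  exact h3

end

end Pool.Agent.Helper93.FST
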