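import Pool.Agent.Helper93.FST.Mk
import Pool.Agent.Helper7.RD.Kv
import Pool.Agent.Helper52.SL.Ext

/-! TRUNCATED ZOOM: `z` is a pair of points which are related by rows over `Z` (window `c`, unit `u`), the rows are tame
at the distance `2 ^ (- a n)`. Then the point truncated at the level `a + u r` and the point of the zoom truncated at the
level `r` are related by the same rows. Volumes of the truncated points. -/

set_option autoImplicit false

namespace Pool.Agent.Helper93.FST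

open Finset Filter Topology Matrix Pool.Agent.Helper69.RK Pool.Agent.Helper31.EC Pool.Agent.Helper31.EC.Sp
open Pool.Agent.Helper40.EL Pool.Agent.Helper89.LX Pool.Agent.Helper3.LF Pool.Agent.Helper84.MT
open Pool.Agent.Helper7.GZ Pool.Agent.Helper7.RD
open Pool.Agent.Helper52.SL (untF tnF untL tnL nul_trn cellv_chg untF_leak tnF_leak)

noncomputable section

variable {S : Sp} {M M' : ℕ}

theorem sub_chg' {Z : ∀ k, Setoid (S.F k).Ω} {b : ℝ} {h0 : 0 < b} {K : ℕ → ℝ} (hK : (S.chg Z b h0).Sub K) :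
    S.Sub K := by
  refine ⟨hK.1, ?_⟩
  have h1 := hK.2.const_mul b
  rw [mul_zero] at h1
  refine h1.congr fun k => ?_
  show b * (Real.logb 2 (K k + 2) / (b * (S.F k).n)) = Real.logb 2 (K k + 2) / (S.F k).n
  have := (S.F k).pos
  field_simp

/-- the rows are tame at the distance `2 ^ (- a n)` of the point -/
def TamP {Z : ZU S} {Q : S.VV M} (z : PZ Z Q M') (a : ℝ) : Prop := ∀ L : ℕ → ℝ, S.Sub L → ∃ K : ℕ → ℝ, S.Sub K ∧
  Typ (S := Z.l.sp) (fun k (ω : (Z.l k).T.Ω) => ∀ y : Fin M → ℝ,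
    (∀ i, |y i - Q.v k ((Z.l k).p.π ω) i| ≤ L k * S.dl a k) → ∀ j, |MvPolynomial.eval y (z.R.p k ω j)| ≤ K k)

/-- Lipschitz bound of tame rows -/
theorem TamP.lp {Z : ZU S} {Q : S.VV M} {z : PZ Z Q M'} {a : ℝ} (h : TamP z a) (r : ℝ) (hr : 0 ≤ r)
    (L : ℕ → ℝ) (hL : S.Sub L) : ∃ K : ℕ → ℝ, S.Sub K ∧ Typ (S := Z.l.sp) (fun k (ω : (Z.l k).T.Ω) =>
      ∀ y : Fin M → ℝ, (∀ i, |y i - Q.v k ((Z.l k).p.π ω) i| ≤ L k * S.dl (a + r) k) → ∀ j,
        |MvPolynomial.eval y (z.R.p k ω j) - MvPolynomial.eval (Q.v k ((Z.l k).p.π ω)) (z.R.p k ω j)| ≤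
          K k * S.dl r k) := by
  obtain ⟨B, hB, h1⟩ := h (fun _ => 1) (S.Sub_const zero_le_one)
  have hc : (0 : ℝ) ≤ M * Cm M z.D := by
    have := Cm_one M z.D
    positivity
  have hL1 : S.Sub (fun k => L k + 1) := hL.add (S.Sub_const zero_le_one)
  refine ⟨fun k => M * Cm M z.D * ((L k + 1) ^ (M * z.D + z.D) * (B k * L k)), (S.Sub_const hc).mul
    ((Sub_pow' hL1 _).mul (hB.mul hL)), Typ.mono (S := Z.l.sp) h1 ?_⟩
  filter_upwards [hL.1, hB.1] with k hL0 hB0 ω _ hh y hy j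
  have hd0 := S.dl_pos a k
  have hdr := S.dl_pos r k
  have e1 : S.dl (a + r) k = S.dl a k * S.dl r k := S.dl_add a r k
  have hr1 : S.dl r k ≤ 1 := by
    rw [← S.dl_zero k]
    exact S.dl_anti hr k
  have h2 := cell_lip z.D (z.R.p k ω j) (z.R.deg k ω j) (Q.v k ((Z.l k).p.π ω)) (S.dl a k) (L k + 1) (B k) hd0
    (by linarith) (fun i => hh _ (fun m => by
      have e2 : nodp z.D (Q.v k ((Z.l k).p.π ω)) (S.dl a k) i m - Q.v k ((Z.l k).p.π ω) m =
          S.dl a k * nod z.D (i m) := by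
        unfold nodp
        ring
      rw [e2, abs_mul, abs_of_pos hd0, abs_of_nonneg (nod_nonneg z.D _), one_mul]
      exact mul_le_of_le_one_right hd0.le (nod_le z.D _ (Nat.le_of_lt_succ (i m).2))) j) (L k * S.dl (a + r) k) (by
      rw [e1]
      have h3 : S.dl a k * S.dl r k ≤ S.dl a k := mul_le_of_le_one_right hd0.le hr1
      exact (mul_le_mul_of_nonneg_left h3 hL0).trans (mul_le_mul_of_nonneg_right (by linarith) hd0.le)) y hy
  refine h2.trans (le_of_eq ?_)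
  rw [e1]
  field_simp

/-! ### the truncated pair -/

section tr

variable {Z : ZU S} {Q : S.VV M} (z : PZ Z Q M') {a : ℝ} (ha : Z.c ≤ a) (hau : a + Z.u ≤ 1)
  {r : ℝ} (hr : 0 < r) (hr1 : r ≤ 1)

include ha hr in
theorem lev_pos : 0 < a + Z.u * r := by
  have h1 := mul_pos Z.hu hr
  have h2 := Z.h0
  linarith

include hau hr1 in
theorem lev_le : a + Z.u * r ≤ 1 := by
  have h1 : Z.u * r ≤ Z.u := mul_le_of_le_one_right Z.hu.le hr1
  linarith

/-- the truncated label, window, unit -/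
def tZ : ZU (S.chg S.tr (a + Z.u * r) (lev_pos ha hr)) where
  l := tnL (a + Z.u * r) (lev_pos ha hr) Z.l
  c := Z.c / (a + Z.u * r)
  u := Z.u * r / (a + Z.u * r)
  h0 := div_nonneg Z.h0 (lev_pos ha hr).le
  hu := div_pos (mul_pos Z.hu hr) (lev_pos ha hr)
  h1 := by
    rw [← add_div, div_le_one (lev_pos ha hr)]
    linarith

theorem tZ_dl (b : ℝ) (k : ℕ) : (S.chg S.tr (a + Z.u * r) (lev_pos ha hr)).dl (b / (a + Z.u * r)) k = S.dl b k := by
  rw [chg_dl, mul_div_cancel₀ _ (lev_pos ha hr).ne']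

theorem Typ_tnL {e : ℝ} (he : 0 < e) {l : Lab S} {P : ∀ k, (l k).T.Ω → Prop} (h : Typ (S := l.sp) P) :
    Typ (S := (tnL e he l).sp) P := h

/-- the truncated rows -/
def tR (hT : TamP z a) : Rows (Q.chg S.tr (a + Z.u * r) (lev_pos ha hr)) (tZ ha hr).l M' z.D
    (z.Λ / (a + Z.u * r)) (tZ ha hr).u where
  p := z.R.p
  deg := z.R.deg
  fn := z.R.fn
  cf := by
    obtain ⟨K, hK, hh⟩ := z.R.cf
    refine ⟨K, chg_sub S.tr _ (lev_pos ha hr) hK, ?_⟩
    filter_upwards [hh] with k hk ω hω j i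
    have e1 : z.Λ / (a + Z.u * r) * ((S.chg S.tr (a + Z.u * r) (lev_pos ha hr)).F k).n = z.Λ * (S.F k).n := by
      show z.Λ / (a + Z.u * r) * ((a + Z.u * r) * (S.F k).n) = _
      rw [← mul_assoc, div_mul_cancel₀ _ (lev_pos ha hr).ne']
    rw [e1]
    exact hk ω hω j i
  bd := by
    obtain ⟨K, hK, hh⟩ := z.R.bd
    exact ⟨K, chg_sub S.tr _ (lev_pos ha hr) hK, hh⟩
  lp := by
    intro L hL
    have hL' : S.Sub L := sub_chg' hL
    obtain ⟨K, hK, hh⟩ := hT.lp (Z.u * r) (mul_pos Z.hu hr).le L hL'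
    refine ⟨K, chg_sub S.tr _ (lev_pos ha hr) hK, ?_⟩
    have hh' : Typ (S := (tZ ha hr).l.sp) (fun k (ω : (Z.l k).T.Ω) =>
      ∀ y : Fin M → ℝ, (∀ i, |y i - Q.v k ((Z.l k).p.π ω) i| ≤ L k * S.dl (a + Z.u * r) k) → ∀ j,
        |MvPolynomial.eval y (z.R.p k ω j) - MvPolynomial.eval (Q.v k ((Z.l k).p.π ω)) (z.R.p k ω j)| ≤
          K k * S.dl (Z.u * r) k) := hh
    refine Typ.mono (S := (tZ ha hr).l.sp) hh' (Eventually.of_forall fun k ω _ h1 y hy j => ?_)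
    have e1 : (S.chg S.tr (a + Z.u * r) (lev_pos ha hr)).dl 1 k = S.dl (a + Z.u * r) k := by
      rw [chg_dl, mul_one]
    have e2 : (S.chg S.tr (a + Z.u * r) (lev_pos ha hr)).dl (tZ ha hr).u k = S.dl (Z.u * r) k :=
      tZ_dl ha hr (Z.u * r) k
    rw [e2]
    rw [e1] at hy
    exact h1 y hy j

/-- the truncated point of the zoom -/
def tX : (tZ ha hr).sp.VV M' where
  v := z.X.v
  bd := by
    obtain ⟨K, hK, hh⟩ := z.X.bd
    exact ⟨K, (tZ ha hr).Sub_sp.1 (chg_sub S.tr _ (lev_pos ha hr) (Z.Sub_sp.2 hK)), hh⟩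

include hr1 in
theorem tX_isX (hT : TamP z a) : Rows.IsX (tZ ha hr) (tR z ha hr hT) (tX z ha hr) := by
  obtain ⟨K, hK, hh⟩ := z.hX
  refine ⟨K, chg_sub S.tr _ (lev_pos ha hr) hK, ?_⟩
  have hh' : Typ (S := (tZ ha hr).sp) (fun k (ω : (Z.l k).T.Ω) => ∀ j,
    |z.X.v k ω j - Rows.val Z z.R k ω j| ≤ K k * S.dl Z.u k) := hh
  refine Typ.mono (S := (tZ ha hr).sp) hh' ?_
  filter_upwards [hK.1] with k hk0 ω _ h1 j
  have e2 : (S.chg S.tr (a + Z.u * r) (lev_pos ha hr)).dl (tZ ha hr).u k = S.dl (Z.u * r) k :=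
    tZ_dl ha hr (Z.u * r) k
  rw [e2]
  refine (h1 j).trans (mul_le_mul_of_nonneg_left (S.dl_anti ?_ k) hk0)
  exact mul_le_of_le_one_right Z.hu.le hr1

/-- THE TRUNCATED PAIR -/
def tP (hT : TamP z a) : PZ (tZ ha hr) (Q.chg S.tr (a + Z.u * r) (lev_pos ha hr)) M' where
  D := z.D
  Λ := z.Λ / (a + Z.u * r)
  R := tR z ha hr hT
  X := tX z ha hr
  hX := tX_isX z ha hr hr1 hT

end tr

end

end Pool.Agent.Helper93.FST
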